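import Pool.Agent.Lib_helper25.PV.Defs

/-! Project PV (MP_b08f5f_an), block B4a1: a Tauberian lemma. -/

set_option autoImplicit false

namespace Pool.Agent.Lib_helper25.PV

open MeasureTheory Filter Topology Set

/-- partial sums against the mean -/
theorem B4a1_sum {a : ℝ → ℂ} {l : ℂ} {δ : ℝ} {N : ℕ}
    (hN : ∀ n : ℕ, n ≥ N → dist ((n : ℂ)⁻¹ * ∑ k ∈ Finset.range n, a k) l < δ)
    {k : ℕ} (hk : N ≤ k) (hk1 : 1 ≤ k) :
    ‖∑ j ∈ Finset.range k, a j - (k : ℂ) * l‖ ≤ k * δ := by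
  have hk0 : (k : ℂ) ≠ 0 := by exact_mod_cast (by omega : k ≠ 0)
  have h1 : ∑ j ∈ Finset.range k, a j - (k : ℂ) * l
      = (k : ℂ) * ((k : ℂ)⁻¹ * ∑ j ∈ Finset.range k, a j - l) := by
    rw [mul_sub, ← mul_assoc, mul_inv_cancel₀ hk0, one_mul]
  rw [h1, norm_mul, Complex.norm_natCast]
  have h2 := hN k hk
  rw [dist_eq_norm] at h2
  exact mul_le_mul_of_nonneg_left h2.le (Nat.cast_nonneg k)

theorem tauber {a : ℝ → ℂ}
    (hs : ∀ ε > 0, ∃ d > 0, ∀ s t : ℝ, 0 < s → 0 < t → |s / t - 1| ≤ d → ‖a s - a t‖ ≤ ε)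
    {l : ℂ} (hc : Tendsto (fun n : ℕ => (n : ℂ)⁻¹ * ∑ k ∈ Finset.range n, a k) atTop (𝓝 l)) :
    Tendsto a atTop (𝓝 l) := by
  rw [Metric.tendsto_atTop]
  intro ε hε
  obtain ⟨d0, hd0, hd⟩ := hs (ε / 3) (by positivity)
  obtain ⟨d, hdpos, hd1, hdd⟩ : ∃ d : ℝ, 0 < d ∧ d ≤ 1 ∧ d ≤ d0 :=
    ⟨min d0 1, lt_min hd0 one_pos, min_le_right _ _, min_le_left _ _⟩
  have hδ : 0 < ε * d / 30 := by positivity
  obtain ⟨N, hN⟩ := Metric.tendsto_atTop.1 hc (ε * d / 30) hδ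
  refine ⟨max (max (N : ℝ) 1) (2 / d), fun t ht => ?_⟩
  have htN : (N : ℝ) ≤ t := le_trans (le_trans (le_max_left _ _) (le_max_left _ _)) ht
  have ht1 : (1 : ℝ) ≤ t := le_trans (le_trans (le_max_right _ _) (le_max_left _ _)) ht
  have htd : 2 / d ≤ t := le_trans (le_max_right _ _) ht
  have htd2 : 2 ≤ d * t := by
    rw [div_le_iff₀ hdpos] at htd
    linarith [mul_comm t d]
  have ht0 : 0 < t := by linarith
  obtain ⟨n, hn⟩ : ∃ n : ℕ, n = ⌈t⌉₊ := ⟨_, rfl⟩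
  obtain ⟨m, hm⟩ : ∃ m : ℕ, m = ⌈(1 + d) * t⌉₊ := ⟨_, rfl⟩
  have hn1 : t ≤ n := hn ▸ Nat.le_ceil t
  have hn2 : (n : ℝ) < t + 1 := hn ▸ Nat.ceil_lt_add_one ht0.le
  have hm0 : 0 ≤ (1 + d) * t := by positivity
  have hm1 : (1 + d) * t ≤ m := hm ▸ Nat.le_ceil _
  have hm2 : (m : ℝ) < (1 + d) * t + 1 := hm ▸ Nat.ceil_lt_add_one hm0
  have hdt : d * t ≤ t := by nlinarith
  have hnm' : (n : ℝ) < m := by nlinarith
  have hnm : n ≤ m := by exact_mod_cast hnm'.le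
  have hNn : N ≤ n := by
    have : (N : ℝ) ≤ n := le_trans htN hn1
    exact_mod_cast this
  have h1n : 1 ≤ n := by
    have : (1 : ℝ) ≤ n := le_trans ht1 hn1
    exact_mod_cast this
  have hSn := B4a1_sum hN hNn h1n
  have hSm := B4a1_sum hN (le_trans hNn hnm) (le_trans h1n hnm)
  have hkey : ((m : ℂ) - n) * (a t - l)
      = ∑ k ∈ Finset.Ico n m, (a t - a k)
        + ((∑ j ∈ Finset.range m, a j - (m : ℂ) * l)
          - (∑ j ∈ Finset.range n, a j - (n : ℂ) * l)) := by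
    rw [Finset.sum_sub_distrib, Finset.sum_const, Nat.card_Ico,
      Finset.sum_Ico_eq_sub (fun k : ℕ => a k) hnm, nsmul_eq_mul, Nat.cast_sub hnm]
    ring
  have hA : ‖∑ k ∈ Finset.Ico n m, (a t - a k)‖ ≤ ((m : ℝ) - n) * (ε / 3) := by
    refine (norm_sum_le _ _).trans ?_
    have : ∀ k ∈ Finset.Ico n m, ‖a t - a k‖ ≤ ε / 3 := by
      intro k hk
      rw [Finset.mem_Ico] at hk
      have hk1 : t ≤ (k : ℝ) := le_trans hn1 (by exact_mod_cast hk.1)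
      have hk2 : (k : ℝ) ≤ (1 + d) * t := by
        have h3 : k < ⌈(1 + d) * t⌉₊ := hm ▸ hk.2
        exact (Nat.lt_ceil.1 h3).le
      have hk0 : 0 < (k : ℝ) := by linarith
      rw [norm_sub_rev]
      refine hd k t hk0 ht0 (le_trans ?_ hdd)
      rw [abs_le]
      constructor
      · have : 1 ≤ (k : ℝ) / t := by rwa [le_div_iff₀ ht0, one_mul]
        linarith
      · have : (k : ℝ) / t ≤ 1 + d := by rwa [div_le_iff₀ ht0]
        linarith
    refine (Finset.sum_le_sum this).trans ?_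
    rw [Finset.sum_const, Nat.card_Ico, nsmul_eq_mul, Nat.cast_sub hnm]
  have hmn : ‖((m : ℂ) - n)‖ = (m : ℝ) - n := by
    have : ((m : ℂ) - n) = (((m : ℝ) - n : ℝ) : ℂ) := by push_cast; ring
    rw [this, Complex.norm_real, Real.norm_eq_abs, abs_of_pos (by linarith)]
  have hmain : ((m : ℝ) - n) * ‖a t - l‖
      ≤ ((m : ℝ) - n) * (ε / 3) + (m * (ε * d / 30) + n * (ε * d / 30)) := by
    rw [← hmn, ← norm_mul, hkey]
    refine (norm_add_le _ _).trans ?_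
    rw [hmn]
    exact add_le_add hA ((norm_sub_le _ _).trans (add_le_add hSm hSn))
  have hgap : d * t / 2 ≤ (m : ℝ) - n := by nlinarith
  have hsum : (m : ℝ) + n ≤ 5 * t := by nlinarith
  have hpos : 0 < (m : ℝ) - n := by linarith
  have hB : m * (ε * d / 30) + n * (ε * d / 30) ≤ ((m : ℝ) - n) * (ε / 3) := by
    have h1 : ((m : ℝ) + n) * (ε * d / 30) ≤ 5 * t * (ε * d / 30) :=
      mul_le_mul_of_nonneg_right hsum hδ.le
    have h2 : d * t / 2 * (ε / 3) ≤ ((m : ℝ) - n) * (ε / 3) :=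
      mul_le_mul_of_nonneg_right hgap (by positivity)
    calc m * (ε * d / 30) + n * (ε * d / 30) = ((m : ℝ) + n) * (ε * d / 30) := by ring
      _ ≤ 5 * t * (ε * d / 30) := h1
      _ = d * t / 2 * (ε / 3) := by ring
      _ ≤ _ := h2
  have hfin : ‖a t - l‖ ≤ ε / 3 + ε / 3 := by
    refine le_of_mul_le_mul_left ?_ hpos
    linarith [hmain, hB]
  rw [dist_eq_norm]
  linarith

end Pool.Agent.Lib_helper25.PV
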